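import Mathlib

set_option autoImplicit false
open MeasureTheory Set
open scoped Pointwise ENNReal

namespace Pool.Agent.Lib.MP_598757_gt

section fibres

variable {V : Type*} [NormedAddCommGroup V] [NormedSpace ℝ V]

/-- The fibre of a compact convex set in the first coordinate is a compact interval. -/
theorem fibre_eq {X : Set (ℝ × V)} (hX : IsCompact X) (hc : Convex ℝ X) {y : V}
    (hy : y ∈ Prod.snd '' X) :
    ∃ a b : ℝ, a ≤ b ∧ (fun z : ℝ => (z, y)) ⁻¹' X = Icc a b := by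
  have hcont : Continuous (fun z : ℝ => (z, y)) := by fun_prop
  have hclosed : IsClosed ((fun z : ℝ => (z, y)) ⁻¹' X) := hX.isClosed.preimage hcont
  have hbd : (fun z : ℝ => (z, y)) ⁻¹' X ⊆ Prod.fst '' X := fun z hz => ⟨(z, y), hz, rfl⟩
  have hcomp : IsCompact ((fun z : ℝ => (z, y)) ⁻¹' X) :=
    (hX.image continuous_fst).of_isClosed_subset hclosed hbd
  have hconv : Convex ℝ ((fun z : ℝ => (z, y)) ⁻¹' X) := by
    intro z hz w hw p q hp hq hpq
    have h := hc hz hw hp hq hpq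
    have e : p • ((z, y) : ℝ × V) + q • (w, y) = (p • z + q • w, y) := by
      ext
      · simp
      · simp [← add_smul, hpq]
    rw [e] at h
    exact h
  have hne : ((fun z : ℝ => (z, y)) ⁻¹' X).Nonempty := by
    obtain ⟨⟨z, y'⟩, hz, rfl⟩ := hy
    exact ⟨z, hz⟩
  have h := eq_Icc_of_connected_compact ⟨hne, hconv.isPreconnected⟩ hcomp
  refine ⟨_, _, ?_, h⟩
  rw [h, nonempty_Icc] at hne
  exact hne

variable [MeasureSpace V] [BorelSpace V]
  [SecondCountableTopology V] [SFinite (volume : Measure V)]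

/-- Adding a segment in the first coordinate direction increases the volume of a compact convex
set by the length of the segment times the size of the projection. -/
theorem vol_add_seg {X : Set (ℝ × V)} (hX : IsCompact X) (hc : Convex ℝ X) {p q : ℝ}
    (hp : p ≤ 0) (hq : 0 ≤ q) :
    volume (X + (Icc p q) ×ˢ ({0} : Set V)) =
      volume X + ENNReal.ofReal (q - p) * volume (Prod.snd '' X) := by
  have hseg : IsCompact ((Icc p q) ×ˢ ({0} : Set V)) := isCompact_Icc.prod isCompact_singleton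
  have hsum : IsCompact (X + (Icc p q) ×ˢ ({0} : Set V)) := hX.add hseg
  have hYm : MeasurableSet (Prod.snd '' X) := (hX.image continuous_snd).isClosed.measurableSet
  rw [Measure.volume_eq_prod, Measure.prod_apply_symm hsum.isClosed.measurableSet,
    Measure.prod_apply_symm hX.isClosed.measurableSet, ← lintegral_indicator_const hYm,
    ← lintegral_add_right _ (measurable_const.indicator hYm)]
  refine lintegral_congr fun y => ?_
  by_cases hy : y ∈ Prod.snd '' X
  · obtain ⟨a, b, hab, hfib⟩ := fibre_eq hX hc hy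
    have h2 : (fun z : ℝ => (z, y)) ⁻¹' (X + (Icc p q) ×ˢ ({0} : Set V)) =
        Icc (a + p) (b + q) := by
      ext z
      simp only [mem_preimage, mem_add, mem_prod, mem_singleton_iff, mem_Icc]
      constructor
      · rintro ⟨⟨x1, x2⟩, hx, ⟨r1, r2⟩, ⟨⟨hr0, hrs⟩, hr2⟩, h⟩
        simp only [Prod.mk_add_mk, Prod.mk.injEq] at h
        simp only at hr2
        subst hr2
        obtain ⟨h1, h2⟩ := h
        rw [add_zero] at h2
        subst h2
        have : x1 ∈ Icc a b := by rw [← hfib]; exact hx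
        constructor
        · have := this.1; simp only at hr0; linarith
        · have := this.2; simp only at hrs; linarith
      · rintro ⟨h1, h2⟩
        rcases le_total z b with hzb | hzb
        · rcases le_total a z with haz | haz
          · refine ⟨(z, y), ?_, (0, 0), ⟨⟨hp, hq⟩, rfl⟩, by simp⟩
            have : z ∈ Icc a b := ⟨haz, hzb⟩
            rw [← hfib] at this; exact this
          · refine ⟨(a, y), ?_, (z - a, 0), ⟨⟨by simp; linarith, by simp; linarith⟩, rfl⟩,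
              by simp⟩
            have : a ∈ Icc a b := ⟨le_refl _, hab⟩
            rw [← hfib] at this; exact this
        · refine ⟨(b, y), ?_, (z - b, 0), ⟨⟨by simp; linarith, by simp; linarith⟩, rfl⟩, by simp⟩
          have : b ∈ Icc a b := ⟨hab, le_refl _⟩
          rw [← hfib] at this; exact this
    rw [h2, hfib, indicator_of_mem hy, Real.volume_Icc, Real.volume_Icc,
      ← ENNReal.ofReal_add (by linarith) (by linarith)]
    congr 1; ring
  · have h1 : (fun z : ℝ => (z, y)) ⁻¹' X = ∅ := by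
      ext z
      simp only [mem_preimage, mem_empty_iff_false, iff_false]
      intro hz
      exact hy ⟨(z, y), hz, rfl⟩
    have h2 : (fun z : ℝ => (z, y)) ⁻¹' (X + (Icc p q) ×ˢ ({0} : Set V)) = ∅ := by
      ext z
      simp only [mem_preimage, mem_empty_iff_false, iff_false, mem_add, mem_prod,
        mem_singleton_iff, not_exists]
      rintro ⟨x1, x2⟩ ⟨hx, ⟨r1, r2⟩, ⟨hr, hr2⟩, h⟩
      simp only [Prod.mk_add_mk, Prod.mk.injEq] at h
      simp only at hr2
      subst hr2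
      obtain ⟨h1, h2⟩ := h
      rw [add_zero] at h2
      subst h2
      exact hy ⟨(x1, x2), hx, rfl⟩
    rw [h1, h2, indicator_of_notMem hy]
    simp

end fibres

/-- Projection area is at least volume over width. -/
theorem vol_le_width {V : Type*} [MeasureSpace V] [SFinite (volume : Measure V)]
    {X : Set (ℝ × V)} {R : ℝ} (hR : ∀ x ∈ X, x.1 ∈ Icc (-R) R) :
    volume X ≤ ENNReal.ofReal (2 * R) * volume (Prod.snd '' X) := by
  have h : X ⊆ (Icc (-R) R) ×ˢ (Prod.snd '' X) := fun x hx => ⟨hR x hx, ⟨x, hx, rfl⟩⟩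
  refine (measure_mono h).trans ?_
  rw [Measure.volume_eq_prod, Measure.prod_prod, Real.volume_Icc]
  gcongr
  linarith

section planar

/-- Crude planar Steiner upper bound for a compact convex set in a square. -/
theorem planar_upper {Y : Set (ℝ × ℝ)} (hY : IsCompact Y) (hc : Convex ℝ Y) {R t : ℝ}
    (ht : 0 ≤ t) (hR : ∀ y ∈ Y, y.1 ∈ Icc (-R) R ∧ y.2 ∈ Icc (-R) R) :
    volume (Y + (Icc (-t) t) ×ˢ (Icc (-t) t)) ≤
      volume Y + ENNReal.ofReal (2 * t) * ENNReal.ofReal (2 * R) +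
        ENNReal.ofReal (2 * t) * ENNReal.ofReal (2 * R + 2 * t) := by
  set Y1 : Set (ℝ × ℝ) := Y + (Icc (-t) t) ×ˢ ({0} : Set ℝ) with hY1
  have hY1c : IsCompact Y1 := hY.add (isCompact_Icc.prod isCompact_singleton)
  have hY1v : Convex ℝ Y1 := hc.add ((convex_Icc _ _).prod (convex_singleton _))
  have e1 : volume Y1 = volume Y + ENNReal.ofReal (t - (-t)) * volume (Prod.snd '' Y) :=
    vol_add_seg hY hc (by linarith) ht
  -- swap
  set W : Set (ℝ × ℝ) := Prod.swap '' Y1 with hW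
  have hWc : IsCompact W := hY1c.image continuous_swap
  have hWv : Convex ℝ W := by
    have := hY1v.linear_image (LinearEquiv.prodComm ℝ ℝ ℝ).toLinearMap
    simpa [hW] using this
  have e2 := vol_add_seg hWc hWv (p := -t) (q := t) (by linarith) ht
  have hswap : Y + (Icc (-t) t) ×ˢ (Icc (-t) t) =
      Prod.swap '' (W + (Icc (-t) t) ×ˢ ({0} : Set ℝ)) := by
    ext ⟨a, b⟩
    simp only [hW, hY1, mem_add, mem_image, mem_prod, mem_singleton_iff, mem_Icc, Prod.exists,
      Prod.mk_add_mk, Prod.mk.injEq, Prod.swap_prod_mk]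
    constructor
    · rintro ⟨y1, y2, hy, r1, r2, ⟨h1, h2⟩, h3, h4⟩
      exact ⟨b, a, ⟨y2, a, ⟨a, y2, ⟨y1, y2, hy, r1, 0, ⟨h1, rfl⟩, h3, by simp⟩, rfl, rfl⟩,
        r2, 0, ⟨h2, rfl⟩, h4, by simp⟩, rfl, rfl⟩
    · rintro ⟨b', a', ⟨w1, w2, ⟨x1, x2, ⟨y1, y2, hy, r1, r2, ⟨h1, h2⟩, h3, h4⟩, h5, h6⟩,
        s1, s2, ⟨h7, h8⟩, h9, h10⟩, h11, h12⟩
      subst h2 h8 h5 h6 h11 h12
      refine ⟨y1, y2, hy, r1, s1, ⟨h1, h7⟩, ?_, ?_⟩
      · linarith
      · linarith
  have hmp : ∀ S : Set (ℝ × ℝ), volume (Prod.swap '' S) = volume S := by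
    intro S
    have h := (Measure.measurePreserving_swap (μ := (volume : Measure ℝ))
      (ν := (volume : Measure ℝ)))
    have h' := MeasurePreserving.measure_preimage_equiv (f := MeasurableEquiv.prodComm) h S
    rw [image_swap_eq_preimage_swap]
    exact h'
  rw [hswap, hmp, e2, hW, hmp, e1]
  have hs1 : volume (Prod.snd '' Y) ≤ ENNReal.ofReal (2 * R) := by
    refine (measure_mono (t := Icc (-R) R) ?_).trans ?_
    · rintro _ ⟨y, hy, rfl⟩
      exact (hR y hy).2
    · rw [Real.volume_Icc]; apply ENNReal.ofReal_le_ofReal; linarith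
  have hs2 : volume (Prod.snd '' (Prod.swap '' Y1)) ≤ ENNReal.ofReal (2 * R + 2 * t) := by
    refine (measure_mono (t := Icc (-R - t) (R + t)) ?_).trans ?_
    · rintro _ ⟨_, ⟨y, hy, rfl⟩, rfl⟩
      obtain ⟨a, ha, r, hr, rfl⟩ := hy
      have h1 := (hR a ha).1
      have h2 := hr.1
      simp only [mem_Icc] at h1 h2
      simp only [Prod.snd_swap, Prod.fst_add, mem_Icc]
      constructor <;> linarith [h1.1, h1.2, h2.1, h2.2]
    · rw [Real.volume_Icc]; apply ENNReal.ofReal_le_ofReal; linarith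
  have e3 : t - -t = 2 * t := by ring
  rw [e3]
  gcongr

end planar

section spatial

/-- Upper bound: the parallel body in space of a flat convex set. -/
theorem flat_upper {Y : Set (ℝ × ℝ)} (hY : IsCompact Y) (hc : Convex ℝ Y) {R t : ℝ}
    (ht : 0 ≤ t) (hR0 : 0 ≤ R) (hR : ∀ y ∈ Y, y.1 ∈ Icc (-R) R ∧ y.2 ∈ Icc (-R) R)
    {B : Set (ℝ × ℝ × ℝ)}
    (hB : ∀ q ∈ B, q.1 ∈ Icc (-t) t ∧ q.2.1 ∈ Icc (-t) t ∧ q.2.2 ∈ Icc (-t) t) :
    (volume (({0} : Set ℝ) ×ˢ Y + B)).toReal ≤
      2 * t * (volume Y).toReal + 16 * R * t ^ 2 + 8 * t ^ 3 := by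
  have hsub : ({0} : Set ℝ) ×ˢ Y + B ⊆ (Icc (-t) t) ×ˢ (Y + (Icc (-t) t) ×ˢ (Icc (-t) t)) := by
    rintro _ ⟨⟨a, y⟩, ⟨ha, hy⟩, q, hq, rfl⟩
    simp only [mem_singleton_iff] at ha
    subst ha
    obtain ⟨h1, h2, h3⟩ := hB q hq
    refine ⟨?_, ?_⟩
    · simpa using h1
    · exact ⟨y, hy, q.2, ⟨h2, h3⟩, rfl⟩
  have hfin : volume Y ≠ ∞ := hY.measure_lt_top.ne
  have h1 : volume (({0} : Set ℝ) ×ˢ Y + B) ≤ ENNReal.ofReal (2 * t) *
      (volume Y + ENNReal.ofReal (2 * t) * ENNReal.ofReal (2 * R) +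
        ENNReal.ofReal (2 * t) * ENNReal.ofReal (2 * R + 2 * t)) := by
    refine (measure_mono hsub).trans ?_
    rw [Measure.volume_eq_prod, Measure.prod_prod, Real.volume_Icc]
    gcongr
    · linarith
    · exact planar_upper hY hc ht hR
  have h2 : ENNReal.ofReal (2 * t) *
      (volume Y + ENNReal.ofReal (2 * t) * ENNReal.ofReal (2 * R) +
        ENNReal.ofReal (2 * t) * ENNReal.ofReal (2 * R + 2 * t)) =
      ENNReal.ofReal (2 * t * (volume Y).toReal + 16 * R * t ^ 2 + 8 * t ^ 3) := by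
    rw [← ENNReal.ofReal_toReal hfin, ← ENNReal.ofReal_mul (by positivity),
      ← ENNReal.ofReal_mul (by positivity), ← ENNReal.ofReal_add (by positivity) (by positivity),
      ← ENNReal.ofReal_add (by positivity) (by positivity), ← ENNReal.ofReal_mul (by positivity)]
    congr 1
    rw [ENNReal.toReal_ofReal (by positivity)]
    ring
  rw [h2] at h1
  exact ENNReal.toReal_le_of_le_ofReal (by positivity) h1

/-- Lower bound: the parallel body in space of a flat convex set. -/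
theorem flat_lower {Y : Set (ℝ × ℝ)} (hY : IsCompact Y) (hc : Convex ℝ Y) {t : ℝ}
    (ht : 0 ≤ t) {B : Set (ℝ × ℝ × ℝ)} (hBb : Bornology.IsBounded B)
    (hB1 : ∀ z ∈ Icc (-t) t, (z, (0 : ℝ), (0 : ℝ)) ∈ B)
    (hB2 : ∀ z ∈ Icc (-(t / 2)) (t / 2), ∀ s ∈ Icc 0 (t / 2), (z, s, (0 : ℝ)) ∈ B) :
    2 * t * (volume Y).toReal + t ^ 2 / 2 * (volume (Prod.snd '' Y)).toReal ≤
      (volume (({0} : Set ℝ) ×ˢ Y + B)).toReal := by
  set Y2 : Set (ℝ × ℝ) := Y + (Icc 0 (t / 2)) ×ˢ ({0} : Set ℝ) with hY2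
  have hY2c : IsCompact Y2 := hY.add (isCompact_Icc.prod isCompact_singleton)
  have hYY2 : Y ⊆ Y2 := by
    intro y hy
    exact ⟨y, hy, (0, 0), ⟨⟨le_refl _, by positivity⟩, rfl⟩, by simp⟩
  have e1 : volume Y2 = volume Y + ENNReal.ofReal (t / 2 - 0) * volume (Prod.snd '' Y) :=
    vol_add_seg hY hc le_rfl (by positivity)
  have hYm : MeasurableSet Y := hY.isClosed.measurableSet
  have hY2m : MeasurableSet Y2 := hY2c.isClosed.measurableSet
  have hfin : volume Y ≠ ∞ := hY.measure_lt_top.ne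
  have hfin' : volume (Prod.snd '' Y) ≠ ∞ := (hY.image continuous_snd).measure_lt_top.ne
  have e2 : volume (Y2 \ Y) = ENNReal.ofReal (t / 2) * volume (Prod.snd '' Y) := by
    rw [measure_sdiff hYY2 hYm.nullMeasurableSet hfin, e1, sub_zero]
    exact ENNReal.add_sub_cancel_left hfin
  have hsub : (Icc (-t) t) ×ˢ Y ∪ (Icc (-(t / 2)) (t / 2)) ×ˢ (Y2 \ Y) ⊆
      ({0} : Set ℝ) ×ˢ Y + B := by
    rintro ⟨z, y⟩ (⟨hz, hy⟩ | ⟨hz, hy, _⟩)
    · exact ⟨(0, y), ⟨rfl, hy⟩, (z, 0, 0), hB1 z hz, by simp⟩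
    · obtain ⟨y0, hy0, ⟨s, s'⟩, ⟨hs, hs'⟩, h⟩ := hy
      simp only [mem_singleton_iff] at hs'
      subst hs'
      refine ⟨(0, y0), ⟨rfl, hy0⟩, (z, s, 0), hB2 z hz s hs, ?_⟩
      simp only at h
      simp [← h]
  have hdisj : Disjoint ((Icc (-t) t) ×ˢ Y) ((Icc (-(t / 2)) (t / 2)) ×ˢ (Y2 \ Y)) := by
    rw [Set.disjoint_left]
    rintro ⟨z, y⟩ ⟨_, h1⟩ ⟨_, _, h2⟩
    exact h2 h1
  have h1 := measure_mono (μ := volume) hsub
  rw [measure_union hdisj (measurableSet_Icc.prod (hY2m.diff hYm)), Measure.volume_eq_prod,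
    Measure.prod_prod, Measure.prod_prod, Real.volume_Icc, Real.volume_Icc, e2] at h1
  have h2 : ENNReal.ofReal (t - -t) * volume Y +
      ENNReal.ofReal (t / 2 - -(t / 2)) * (ENNReal.ofReal (t / 2) * volume (Prod.snd '' Y)) =
      ENNReal.ofReal (2 * t * (volume Y).toReal +
        t ^ 2 / 2 * (volume (Prod.snd '' Y)).toReal) := by
    rw [← ENNReal.ofReal_toReal hfin, ← ENNReal.ofReal_toReal hfin',
      ← ENNReal.ofReal_mul (by linarith), ← ENNReal.ofReal_mul (by positivity),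
      ← ENNReal.ofReal_mul (by linarith), ← ENNReal.ofReal_add]
    · congr 1
      rw [ENNReal.toReal_ofReal (by positivity), ENNReal.toReal_ofReal (by positivity)]
      ring
    · apply mul_nonneg (by linarith) (by positivity)
    · apply mul_nonneg (by linarith) (by positivity)
  rw [h2] at h1
  rw [← ENNReal.ofReal_le_iff_le_toReal]
  · exact h1
  · have hbd : Bornology.IsBounded (({0} : Set ℝ) ×ˢ Y + B) :=
      ((isCompact_singleton.prod hY).isBounded).add hBb
    exact hbd.measure_lt_top.ne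

end spatial

end Pool.Agent.Lib.MP_598757_gt
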