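import Pool.Agent.Lib.MP_598757_gt.Coord

set_option autoImplicit false
open MeasureTheory Set
open scoped Pointwise ENNReal

namespace Pool.Agent.Lib.MP_598757_gt

/-- The box in coordinates. -/
def boxC (e : ℝ) : Set (ℝ × ℝ × ℝ) := (Icc (-1) 1) ×ˢ ((Icc (-1) 1) ×ˢ (Icc (-e) e))

/-- The standard frame. -/
noncomputable def b0 : OrthonormalBasis (Fin 3) ℝ E3 := EuclideanSpace.basisFun (Fin 3) ℝ

/-- The flat box in Euclidean three-space. -/
noncomputable def box (e : ℝ) : Set E3 := T b0 ⁻¹' (boxC e)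

theorem T_image_box (e : ℝ) : T b0 '' (box e) = boxC e :=
  image_preimage_eq _ (fun q => T_surj b0 q)

theorem box_closed (e : ℝ) : IsClosed (box e) :=
  (isClosed_Icc.prod (isClosed_Icc.prod isClosed_Icc)).preimage (T_cont b0)

theorem box_norm {e : ℝ} (he0 : 0 ≤ e) (he : e ≤ 1) : ∀ x ∈ box e, ‖x‖ ≤ 2 := by
  intro x hx
  obtain ⟨h1, h2, h3⟩ := hx
  simp only [mem_Icc] at h1 h2 h3
  have h4 : ‖x‖ ^ 2 ≤ 2 ^ 2 := by
    rw [T_norm b0]
    nlinarith [h1.1, h1.2, h2.1, h2.2, h3.1, h3.2]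
  exact le_of_sq_le_sq h4 (by norm_num)

theorem box_compact {e : ℝ} (he0 : 0 ≤ e) (he : e ≤ 1) : IsCompact (box e) := by
  apply Metric.isCompact_of_isClosed_isBounded (box_closed e)
  rw [isBounded_iff_forall_norm_le]
  exact ⟨2, box_norm he0 he⟩

theorem box_convex (e : ℝ) : Convex ℝ (box e) :=
  ((convex_Icc _ _).prod ((convex_Icc _ _).prod (convex_Icc _ _))).linear_preimage (T b0)

theorem box_interior {e : ℝ} (he0 : 0 < e) : (interior (box e)).Nonempty := by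
  refine ⟨0, ?_⟩
  rw [mem_interior]
  refine ⟨T b0 ⁻¹' ((Ioo (-1) 1) ×ˢ ((Ioo (-1) 1) ×ˢ (Ioo (-e) e))), ?_, ?_, ?_⟩
  · apply preimage_mono
    exact prod_mono Ioo_subset_Icc_self (prod_mono Ioo_subset_Icc_self Ioo_subset_Icc_self)
  · exact (isOpen_Ioo.prod (isOpen_Ioo.prod isOpen_Ioo)).preimage (T_cont b0)
  · simp [he0]

theorem vol_prod3 (a b c d f g : ℝ) (h1 : a ≤ b) (h2 : c ≤ d) (_h3 : f ≤ g) :
    volume ((Icc a b) ×ˢ ((Icc c d) ×ˢ (Icc f g)) : Set (ℝ × ℝ × ℝ)) =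
      ENNReal.ofReal ((b - a) * ((d - c) * (g - f))) := by
  rw [Measure.volume_eq_prod, Measure.prod_prod, Measure.volume_eq_prod, Measure.prod_prod,
    Real.volume_Icc, Real.volume_Icc, Real.volume_Icc, ← ENNReal.ofReal_mul (by linarith),
    ← ENNReal.ofReal_mul (by linarith)]

theorem vol_box {e : ℝ} (he0 : 0 ≤ e) : volume (box e) = ENNReal.ofReal (8 * e) := by
  rw [← vol_T b0, T_image_box, boxC, vol_prod3 _ _ _ _ _ _ (by norm_num) (by norm_num)
    (by linarith)]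
  congr 1; ring

theorem box_upper {e t : ℝ} (he0 : 0 ≤ e) (ht : 0 ≤ t) :
    volume (box e + Metric.closedBall (0 : E3) t) ≤
      ENNReal.ofReal ((2 + 2 * t) * ((2 + 2 * t) * (2 * e + 2 * t))) := by
  rw [← vol_T b0, image_add, T_image_box]
  have hsub : boxC e + T b0 '' Metric.closedBall 0 t ⊆
      (Icc (-1 - t) (1 + t)) ×ˢ ((Icc (-1 - t) (1 + t)) ×ˢ (Icc (-e - t) (e + t))) := by
    rintro _ ⟨x, ⟨h1, h2, h3⟩, q, hq, rfl⟩
    rw [T_ball b0 ht] at hq
    obtain ⟨g1, g2, g3⟩ := coords_le ht hq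
    simp only [mem_Icc] at h1 h2 h3 g1 g2 g3
    simp only [mem_prod, mem_Icc, Prod.fst_add, Prod.snd_add]
    refine ⟨⟨?_, ?_⟩, ⟨?_, ?_⟩, ?_, ?_⟩ <;> linarith [h1.1, h1.2, h2.1, h2.2, h3.1, h3.2, g1.1,
      g1.2, g2.1, g2.2, g3.1, g3.2]
  refine (measure_mono hsub).trans ?_
  rw [vol_prod3 _ _ _ _ _ _ (by linarith) (by linarith) (by linarith)]
  apply ENNReal.ofReal_le_ofReal
  apply le_of_eq; ring

theorem vol_shell {t r : ℝ} (ht : 0 ≤ t) (hr : 0 ≤ r) :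
    volume (Icc (-r - t) (r + t) \ Icc (-r) r) = ENNReal.ofReal (2 * t) := by
  rw [measure_sdiff (Icc_subset_Icc (by linarith) (by linarith))
    measurableSet_Icc.nullMeasurableSet (by simp), Real.volume_Icc, Real.volume_Icc,
    ← ENNReal.ofReal_sub _ (by linarith)]
  congr 1; ring

theorem split_coord {t r x : ℝ} (ht : 0 ≤ t) (hr : 0 ≤ r) (hx : x ∈ Icc (-r - t) (r + t)) :
    ∃ y ∈ Icc (-r) r, ∃ z, z ^ 2 ≤ t ^ 2 ∧ y + z = x := by
  obtain ⟨h1, h2⟩ := hx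
  rcases le_total x (-r) with h | h
  · exact ⟨-r, ⟨le_rfl, by linarith⟩, x + r, by nlinarith, by ring⟩
  · rcases le_total x r with h' | h'
    · exact ⟨x, ⟨h, h'⟩, 0, by nlinarith, by ring⟩
    · exact ⟨r, ⟨by linarith, le_rfl⟩, x - r, by nlinarith, by ring⟩

theorem box_lower {e t : ℝ} (he0 : 0 ≤ e) (ht : 0 ≤ t) :
    ENNReal.ofReal (8 * e + 8 * t + 16 * e * t) ≤
      volume (box e + Metric.closedBall (0 : E3) t) := by
  rw [← vol_T b0, image_add, T_image_box]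
  set A1 : Set (ℝ × ℝ × ℝ) := (Icc (-1 - t) (1 + t)) ×ˢ ((Icc (-1) 1) ×ˢ (Icc (-e) e)) with hA1
  set A2 : Set (ℝ × ℝ × ℝ) :=
    (Icc (-1) 1) ×ˢ ((Icc (-1 - t) (1 + t) \ Icc (-1) 1) ×ˢ (Icc (-e) e)) with hA2
  set A3 : Set (ℝ × ℝ × ℝ) :=
    (Icc (-1) 1) ×ˢ ((Icc (-1) 1) ×ˢ (Icc (-e - t) (e + t) \ Icc (-e) e)) with hA3
  have m2 : MeasurableSet A2 :=
    measurableSet_Icc.prod ((measurableSet_Icc.diff measurableSet_Icc).prod measurableSet_Icc)
  have m3 : MeasurableSet A3 :=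
    measurableSet_Icc.prod (measurableSet_Icc.prod (measurableSet_Icc.diff measurableSet_Icc))
  have d12 : Disjoint A1 A2 := by
    rw [Set.disjoint_left]
    rintro ⟨x, y, z⟩ ⟨_, h1, _⟩ ⟨_, ⟨_, h2⟩, _⟩
    exact h2 h1
  have d123 : Disjoint (A1 ∪ A2) A3 := by
    rw [Set.disjoint_left]
    rintro ⟨x, y, z⟩ (⟨_, _, h1⟩ | ⟨_, _, h1⟩) ⟨_, _, _, h2⟩
    · exact h2 h1
    · exact h2 h1
  have hsub : (A1 ∪ A2) ∪ A3 ⊆ boxC e + T b0 '' Metric.closedBall 0 t := by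
    rintro ⟨x, y, z⟩ ((⟨hx, hy, hz⟩ | ⟨hx, ⟨hy, _⟩, hz⟩) | ⟨hx, hy, hz, _⟩)
    · obtain ⟨p, hp, q, hq, hpq⟩ := split_coord ht zero_le_one hx
      simp only at hpq
      refine ⟨(p, y, z), ⟨hp, hy, hz⟩, (q, 0, 0), ?_, by simp [hpq]⟩
      rw [T_ball b0 ht]
      simpa using hq
    · obtain ⟨p, hp, q, hq, hpq⟩ := split_coord ht zero_le_one hy
      simp only at hpq
      refine ⟨(x, p, z), ⟨hx, hp, hz⟩, (0, q, 0), ?_, by simp [hpq]⟩
      rw [T_ball b0 ht]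
      simpa using hq
    · obtain ⟨p, hp, q, hq, hpq⟩ := split_coord ht he0 hz
      simp only at hpq
      refine ⟨(x, y, p), ⟨hx, hy, hp⟩, (0, 0, q), ?_, by simp [hpq]⟩
      rw [T_ball b0 ht]
      simpa using hq
  refine le_trans (le_of_eq ?_) (measure_mono hsub)
  rw [measure_union d123 m3, measure_union d12 m2, hA1,
    vol_prod3 _ _ _ _ _ _ (by linarith) (by norm_num) (by linarith), hA2, hA3,
    Measure.volume_eq_prod, Measure.prod_prod, Measure.volume_eq_prod, Measure.prod_prod,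
    Measure.prod_prod, Measure.prod_prod, vol_shell ht zero_le_one, vol_shell ht he0,
    Real.volume_Icc, Real.volume_Icc, ← ENNReal.ofReal_mul (by positivity),
    ← ENNReal.ofReal_mul (by norm_num), ← ENNReal.ofReal_mul (by norm_num),
    ← ENNReal.ofReal_mul (by norm_num), ← ENNReal.ofReal_add, ← ENNReal.ofReal_add]
  · congr 1; ring
  · ring_nf; positivity
  · positivity
  · ring_nf; positivity
  · ring_nf; positivity

theorem box_limit {e : ℝ} (he0 : 0 ≤ e) :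
    Filter.Tendsto (fun t : ℝ =>
        ((volume (box e + Metric.closedBall (0 : E3) t)).toReal
          - (volume (box e)).toReal) / (2 * t))
        (nhdsWithin 0 (Set.Ioi 0)) (nhds (4 + 8 * e)) := by
  rw [vol_box he0, ENNReal.toReal_ofReal (by positivity)]
  have hlim : Filter.Tendsto (fun t : ℝ => 4 + 8 * e + (8 * t + 4 * e * t + 4 * t ^ 2))
      (nhdsWithin 0 (Set.Ioi 0)) (nhds (4 + 8 * e + (8 * 0 + 4 * e * 0 + 4 * 0 ^ 2))) := by
    apply Filter.Tendsto.mono_left _ nhdsWithin_le_nhds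
    exact (Continuous.tendsto (by fun_prop) 0)
  have hlim' : Filter.Tendsto (fun t : ℝ => 4 + 8 * e + (8 * t + 4 * e * t + 4 * t ^ 2))
      (nhdsWithin 0 (Set.Ioi 0)) (nhds (4 + 8 * e)) := by
    simpa using hlim
  refine tendsto_of_tendsto_of_tendsto_of_le_of_le' tendsto_const_nhds hlim' ?_ ?_
  · filter_upwards [self_mem_nhdsWithin] with t ht
    have ht' : (0 : ℝ) < t := ht
    rw [le_div_iff₀ (by positivity)]
    have h := box_lower he0 ht'.le
    have hfin : volume (box e + Metric.closedBall (0 : E3) t) ≠ ∞ :=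
      ne_top_of_le_ne_top ENNReal.ofReal_ne_top (box_upper he0 ht'.le)
    rw [ENNReal.ofReal_le_iff_le_toReal hfin] at h
    linarith
  · filter_upwards [self_mem_nhdsWithin] with t ht
    have ht' : (0 : ℝ) < t := ht
    rw [div_le_iff₀ (by positivity)]
    have h := ENNReal.toReal_le_of_le_ofReal (by positivity) (box_upper he0 ht'.le)
    nlinarith

end Pool.Agent.Lib.MP_598757_gt
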