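import Pool.Agent.Lib.MP_598757_gt.Basic

set_option autoImplicit false
open MeasureTheory Set
open scoped Pointwise ENNReal

namespace Pool.Agent.Lib.MP_598757_gt

/-- Euclidean three-space. -/
abbrev E3 := EuclideanSpace ℝ (Fin 3)

/-- Coordinates of a vector in an orthonormal frame, arranged as a nested pair. -/
noncomputable def T (b : OrthonormalBasis (Fin 3) ℝ E3) : E3 →ₗ[ℝ] ℝ × ℝ × ℝ where
  toFun x := (b.repr x 0, b.repr x 1, b.repr x 2)
  map_add' x y := by simp
  map_smul' c x := by simp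

theorem T_apply (b : OrthonormalBasis (Fin 3) ℝ E3) (x : E3) :
    T b x = (b.repr x 0, b.repr x 1, b.repr x 2) := rfl

theorem T_cont (b : OrthonormalBasis (Fin 3) ℝ E3) : Continuous (T b) :=
  LinearMap.continuous_of_finiteDimensional _

/-- The coordinate map as a measurable equivalence. -/
noncomputable def Te (b : OrthonormalBasis (Fin 3) ℝ E3) : E3 ≃ᵐ ℝ × ℝ × ℝ :=
  (b.measurableEquiv.trans (MeasurableEquiv.toLp 2 (Fin 3 → ℝ)).symm).trans
    ((MeasurableEquiv.piFinSuccAbove (fun _ : Fin 3 => ℝ) 0).trans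
      (MeasurableEquiv.prodCongr (MeasurableEquiv.refl ℝ) MeasurableEquiv.finTwoArrow))

theorem Te_mp (b : OrthonormalBasis (Fin 3) ℝ E3) : MeasurePreserving (Te b) := by
  have h1 : MeasurePreserving b.measurableEquiv := b.measurePreserving_measurableEquiv
  have h2 := EuclideanSpace.volume_preserving_symm_measurableEquiv_toLp (Fin 3)
  have h3 := volume_preserving_piFinSuccAbove (fun _ : Fin 3 => ℝ) 0
  have h4 : MeasurePreserving (MeasurableEquiv.prodCongr (MeasurableEquiv.refl ℝ)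
      (MeasurableEquiv.finTwoArrow (α := ℝ))) :=
    MeasurePreserving.prod (MeasurePreserving.id volume) (volume_preserving_finTwoArrow ℝ)
  exact (h1.trans h2).trans (h3.trans h4)

theorem Te_apply (b : OrthonormalBasis (Fin 3) ℝ E3) (x : E3) : Te b x = T b x := by
  rfl

theorem vol_T (b : OrthonormalBasis (Fin 3) ℝ E3) (s : Set E3) :
    volume (T b '' s) = volume s := by
  have h : T b '' s = (Te b).symm ⁻¹' s := by
    rw [← (Te b).image_eq_preimage_symm]
    exact image_congr fun x _ => (Te_apply b x).symm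
  rw [h]
  exact ((Te_mp b).symm (Te b)).measure_preimage_equiv s

theorem T_norm (b : OrthonormalBasis (Fin 3) ℝ E3) (x : E3) :
    ‖x‖ ^ 2 = (T b x).1 ^ 2 + (T b x).2.1 ^ 2 + (T b x).2.2 ^ 2 := by
  rw [← b.repr.norm_map x, EuclideanSpace.norm_sq_eq, Fin.sum_univ_three]
  simp [T_apply]

theorem T_surj (b : OrthonormalBasis (Fin 3) ℝ E3) (q : ℝ × ℝ × ℝ) : ∃ x, T b x = q :=
  ⟨(Te b).symm q, by rw [← Te_apply]; exact (Te b).apply_symm_apply q⟩

theorem T_ball (b : OrthonormalBasis (Fin 3) ℝ E3) {t : ℝ} (ht : 0 ≤ t) (q : ℝ × ℝ × ℝ) :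
    q ∈ T b '' Metric.closedBall 0 t ↔ q.1 ^ 2 + q.2.1 ^ 2 + q.2.2 ^ 2 ≤ t ^ 2 := by
  constructor
  · rintro ⟨x, hx, rfl⟩
    rw [mem_closedBall_zero_iff] at hx
    rw [← T_norm]
    gcongr
  · intro h
    obtain ⟨x, rfl⟩ := T_surj b q
    refine ⟨x, ?_, rfl⟩
    rw [mem_closedBall_zero_iff]
    rw [← T_norm] at h
    exact le_of_sq_le_sq h ht

theorem coords_le {x y z R : ℝ} (hR : 0 ≤ R) (h : x ^ 2 + y ^ 2 + z ^ 2 ≤ R ^ 2) :
    x ∈ Icc (-R) R ∧ y ∈ Icc (-R) R ∧ z ∈ Icc (-R) R := by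
  refine ⟨abs_le.mp (abs_le_of_sq_le_sq ?_ hR), abs_le.mp (abs_le_of_sq_le_sq ?_ hR),
    abs_le.mp (abs_le_of_sq_le_sq ?_ hR)⟩
  · nlinarith [sq_nonneg y, sq_nonneg z]
  · nlinarith [sq_nonneg x, sq_nonneg z]
  · nlinarith [sq_nonneg x, sq_nonneg y]

theorem exists_basis {u : E3} (hu : ‖u‖ = 1) :
    ∃ b : OrthonormalBasis (Fin 3) ℝ E3, b 0 = u := by
  have h := Orthonormal.exists_orthonormalBasis_extension_of_card_eq (𝕜 := ℝ) (E := E3)
    (ι := Fin 3) (by simp) (v := fun _ => u) (s := {0}) ?_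
  · obtain ⟨b, hb⟩ := h
    exact ⟨b, hb 0 rfl⟩
  · constructor
    · intro i; simpa using hu
    · intro i j hij
      exact absurd (Subsingleton.elim i j) hij

theorem T_proj (b : OrthonormalBasis (Fin 3) ℝ E3) {u : E3} (hb : b 0 = u) (K : Set E3) :
    T b '' ((fun x : E3 => x - (inner ℝ u x) • u) '' K) =
      ({0} : Set ℝ) ×ˢ (Prod.snd '' (T b '' K)) := by
  have hTu : T b u = (1, 0, 0) := by
    rw [T_apply, ← hb, b.repr_self]
    simp
  have key : ∀ x, T b (x - (inner ℝ u x) • u) = (0, (T b x).2) := by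
    intro x
    rw [map_sub, map_smul, hTu]
    have : inner ℝ u x = (T b x).1 := by
      rw [T_apply, ← hb, b.repr_apply_apply]
    rw [this]
    ext <;> simp
  ext ⟨a, q⟩
  simp only [mem_image, mem_prod, mem_singleton_iff]
  constructor
  · rintro ⟨_, ⟨x, hx, rfl⟩, h⟩
    rw [key] at h
    simp only [Prod.mk.injEq] at h
    exact ⟨h.1.symm, T b x, ⟨x, hx, rfl⟩, h.2⟩
  · rintro ⟨rfl, _, ⟨x, hx, rfl⟩, h⟩
    exact ⟨_, ⟨x, hx, rfl⟩, by rw [key, h]⟩

theorem T_segment (b : OrthonormalBasis (Fin 3) ℝ E3) {u : E3} (hb : b 0 = u) :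
    T b '' (segment ℝ 0 u) = (Icc 0 1) ×ˢ ({0} : Set (ℝ × ℝ)) := by
  have hTu : T b u = (1, 0, 0) := by
    rw [T_apply, ← hb, b.repr_self]
    simp
  ext ⟨a, q⟩
  simp only [mem_image, mem_prod, mem_singleton_iff, segment_eq_image', mem_Icc]
  constructor
  · rintro ⟨_, ⟨θ, hθ, rfl⟩, h⟩
    simp only [sub_zero, zero_add, map_smul, hTu] at h
    simp only [Prod.smul_mk, smul_eq_mul, mul_one, mul_zero, Prod.mk.injEq] at h
    refine ⟨by rw [← h.1]; exact hθ, ?_⟩
    rw [← h.2]; rfl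
  · rintro ⟨ha, rfl⟩
    refine ⟨_, ⟨a, ha, rfl⟩, ?_⟩
    simp [hTu]

/-- The increase of volume under adding a unit segment is the projection area. -/
theorem area_eq (b : OrthonormalBasis (Fin 3) ℝ E3) {u : E3} (hb : b 0 = u) {K : Set E3}
    (hK : IsCompact K) (hc : Convex ℝ K) :
    (volume (K + segment ℝ (0 : E3) u)).toReal - (volume K).toReal =
      (volume (Prod.snd '' (T b '' K))).toReal := by
  have h1 : IsCompact (T b '' K) := hK.image (T_cont b)
  have h2 : Convex ℝ (T b '' K) := hc.linear_image (T b)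
  have e : volume (K + segment ℝ (0 : E3) u) =
      volume K + ENNReal.ofReal (1 - 0) * volume (Prod.snd '' (T b '' K)) := by
    rw [← vol_T b (K + segment ℝ (0 : E3) u), image_add, T_segment b hb,
      vol_add_seg h1 h2 le_rfl zero_le_one, vol_T]
  have hfin : volume K ≠ ∞ := hK.measure_lt_top.ne
  have hfin' : volume (Prod.snd '' (T b '' K)) ≠ ∞ :=
    (h1.image continuous_snd).measure_lt_top.ne
  rw [e, sub_zero, ENNReal.ofReal_one, one_mul, ENNReal.toReal_add hfin hfin']
  ring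

theorem par_bounds (b : OrthonormalBasis (Fin 3) ℝ E3) {u : E3} (hb : b 0 = u) {K : Set E3}
    (hK : IsCompact K) (hc : Convex ℝ K) {R : ℝ} (hR0 : 0 ≤ R) (hR : ∀ x ∈ K, ‖x‖ ≤ R)
    {t : ℝ} (ht : 0 ≤ t) :
    2 * t * (volume (Prod.snd '' (T b '' K))).toReal +
        t ^ 2 / 2 * (volume (Prod.snd '' (Prod.snd '' (T b '' K)))).toReal ≤
      (volume ((fun x : E3 => x - (inner ℝ u x) • u) '' K + Metric.closedBall (0 : E3) t)).toReal ∧
    (volume ((fun x : E3 => x - (inner ℝ u x) • u) '' K + Metric.closedBall (0 : E3) t)).toReal ≤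
      2 * t * (volume (Prod.snd '' (T b '' K))).toReal + 16 * R * t ^ 2 + 8 * t ^ 3 := by
  have h1 : IsCompact (T b '' K) := hK.image (T_cont b)
  have h2 : Convex ℝ (T b '' K) := hc.linear_image (T b)
  set Y : Set (ℝ × ℝ) := Prod.snd '' (T b '' K) with hY
  have hYc : IsCompact Y := h1.image continuous_snd
  have hYv : Convex ℝ Y := h2.linear_image (LinearMap.snd ℝ ℝ (ℝ × ℝ))
  rw [← vol_T b ((fun x : E3 => x - (inner ℝ u x) • u) '' K + Metric.closedBall (0 : E3) t),
    image_add, T_proj b hb]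
  constructor
  · apply flat_lower hYc hYv ht
    · exact ((isCompact_closedBall (0 : E3) t).image (T_cont b)).isBounded
    · intro z hz
      rw [T_ball b ht]
      simp only [mem_Icc] at hz
      nlinarith [hz.1, hz.2]
    · intro z hz s hs
      rw [T_ball b ht]
      simp only [mem_Icc] at hz hs
      have a1 : z ^ 2 ≤ (t / 2) ^ 2 := sq_le_sq' hz.1 hz.2
      have a2 : s ^ 2 ≤ (t / 2) ^ 2 := sq_le_sq' (by linarith [hs.1]) hs.2
      nlinarith
  · apply flat_upper hYc hYv ht hR0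
    · rintro y ⟨_, ⟨x, hx, rfl⟩, rfl⟩
      have h3 := hR x hx
      have h4 : ‖x‖ ^ 2 ≤ R ^ 2 := by gcongr
      rw [T_norm b] at h4
      exact (coords_le hR0 h4).2
    · intro q hq
      rw [T_ball b ht] at hq
      exact coords_le ht hq

/-- A crude lower bound for the isoperimetric ratio of every projection of a convex body. -/
theorem ratio_bound {K : Set E3} (hK : IsCompact K) (hc : Convex ℝ K) {R : ℝ} (hR0 : 0 < R)
    (hR : ∀ x ∈ K, ‖x‖ ≤ R) (hvol : 0 < (volume K).toReal) {u : E3} (hu : ‖u‖ = 1) {L : ℝ}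
    (hL : Filter.Tendsto (fun t : ℝ =>
        ((volume ((fun x : E3 => x - (inner ℝ u x) • u) '' K
              + Metric.closedBall (0 : E3) t)).toReal
          - 2 * t * ((volume (K + segment ℝ (0 : E3) u)).toReal
              - (volume K).toReal)) / (Real.pi * t ^ 2))
        (nhdsWithin 0 (Set.Ioi 0)) (nhds L)) :
    Real.pi ^ 3 * (volume K).toReal / (512 * R ^ 3) ≤
      Real.pi * ((volume (K + segment ℝ (0 : E3) u)).toReal - (volume K).toReal) / L ^ 2 := by
  obtain ⟨b, hb⟩ := exists_basis hu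
  have hA := area_eq b hb hK hc
  rw [hA] at hL ⊢
  have h1 : IsCompact (T b '' K) := hK.image (T_cont b)
  have h2 : Convex ℝ (T b '' K) := hc.linear_image (T b)
  set Y : Set (ℝ × ℝ) := Prod.snd '' (T b '' K) with hY
  set a := (volume Y).toReal with ha
  set l := (volume (Prod.snd '' Y)).toReal with hl
  have hYc : IsCompact Y := h1.image continuous_snd
  have hcoord : ∀ x ∈ K, (T b x).1 ∈ Icc (-R) R ∧ (T b x).2.1 ∈ Icc (-R) R := by
    intro x hx
    have h3 := hR x hx
    have h4 : ‖x‖ ^ 2 ≤ R ^ 2 := by gcongr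
    rw [T_norm b] at h4
    have h5 := coords_le hR0.le h4
    exact ⟨h5.1, h5.2.1⟩
  -- area is at least volume / (2R)
  have ha_ge : (volume K).toReal ≤ 2 * R * a := by
    have h3 : volume (T b '' K) ≤ ENNReal.ofReal (2 * R) * volume Y := by
      apply vol_le_width
      rintro _ ⟨x, hx, rfl⟩
      exact (hcoord x hx).1
    rw [vol_T] at h3
    have h4 := ENNReal.toReal_mono (ENNReal.mul_ne_top ENNReal.ofReal_ne_top
      hYc.measure_lt_top.ne) h3
    rwa [ENNReal.toReal_mul, ENNReal.toReal_ofReal (by positivity)] at h4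
  have hl_ge : a ≤ 2 * R * l := by
    have h3 : volume Y ≤ ENNReal.ofReal (2 * R) * volume (Prod.snd '' Y) := by
      apply vol_le_width
      rintro _ ⟨_, ⟨x, hx, rfl⟩, rfl⟩
      exact (hcoord x hx).2
    have h4 := ENNReal.toReal_mono (ENNReal.mul_ne_top ENNReal.ofReal_ne_top
      (hYc.image continuous_snd).measure_lt_top.ne) h3
    rwa [ENNReal.toReal_mul, ENNReal.toReal_ofReal (by positivity)] at h4
  have hapos : 0 < a := by
    by_contra hneg
    have : a ≤ 0 := not_lt.mp hneg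
    nlinarith
  have hlpos : 0 < l := by
    by_contra hneg
    have : l ≤ 0 := not_lt.mp hneg
    nlinarith
  have hpi := Real.pi_pos
  -- bounds for the limit
  have hLlow : l / (2 * Real.pi) ≤ L := by
    refine ge_of_tendsto hL ?_
    filter_upwards [self_mem_nhdsWithin] with t ht
    have ht' : (0 : ℝ) < t := ht
    have hb1 := (par_bounds b hb hK hc hR0.le hR ht'.le).1
    rw [div_le_div_iff₀ (by positivity) (by positivity)]
    have e1 : l * (Real.pi * t ^ 2) = (t ^ 2 / 2 * l) * (2 * Real.pi) := by ring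
    rw [e1]
    apply mul_le_mul_of_nonneg_right _ (by positivity)
    linarith
  have hLup : L ≤ 16 * R / Real.pi := by
    have hlim : Filter.Tendsto (fun t : ℝ => 16 * R / Real.pi + 8 / Real.pi * t)
        (nhdsWithin 0 (Set.Ioi 0)) (nhds (16 * R / Real.pi + 8 / Real.pi * 0)) := by
      apply Filter.Tendsto.mono_left _ nhdsWithin_le_nhds
      exact (Continuous.tendsto (by fun_prop) 0)
    have h5 := le_of_tendsto_of_tendsto hL hlim ?_
    · simpa using h5
    · filter_upwards [self_mem_nhdsWithin] with t ht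
      have ht' : (0 : ℝ) < t := ht
      have hb1 := (par_bounds b hb hK hc hR0.le hR ht'.le).2
      rw [div_le_iff₀ (by positivity)]
      have e1 : (16 * R / Real.pi + 8 / Real.pi * t) * (Real.pi * t ^ 2) =
          16 * R * t ^ 2 + 8 * t ^ 3 := by
        field_simp
      rw [e1]
      linarith
  have hLpos : 0 < L := lt_of_lt_of_le (by positivity) hLlow
  have hL2 : L ^ 2 ≤ (16 * R / Real.pi) ^ 2 := by gcongr
  calc Real.pi ^ 3 * (volume K).toReal / (512 * R ^ 3)
      ≤ Real.pi ^ 3 * (2 * R * a) / (512 * R ^ 3) := by gcongr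
    _ = Real.pi * a / (16 * R / Real.pi) ^ 2 := by field_simp; ring
    _ ≤ Real.pi * a / L ^ 2 := by gcongr

end Pool.Agent.Lib.MP_598757_gt
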